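import Pool.Agent.Q109.TD2.Lower

/-!
# Treedepth of `P_t`-free graphs of bounded 2-treedepth

`Q109.TD2.td G S` and `Q109.TD2.td2 G S` are the treedepth and the 2-treedepth of the induced
subgraph `G[S]`, by the recursive definitions of the problem file (components, cut-vertices and
blocks as there).  A graph is `P_t`-free when there is no induced embedding of the path
`SimpleGraph.pathGraph t` on `t` vertices.
-/

namespace Pool.Agent.Results.MP_28efe0_co.TreedepthValue

open Q109.TD2 Classical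

/-- the treedepths of the `P_t`-free graphs of 2-treedepth at most `k` -/
def treedepths (k t : ℕ) : Set ℕ :=
  {d | ∃ (V : Type) (_ : Fintype V) (G : SimpleGraph V),
    IsEmpty (SimpleGraph.pathGraph t ↪g G) ∧ td2 G Finset.univ ≤ k ∧ td G Finset.univ = d}

theorem upper_bound (k t : ℕ) (ht : 2 ≤ t) (V : Type) [Fintype V] (G : SimpleGraph V)
    (hfree : IsEmpty (SimpleGraph.pathGraph t ↪g G)) (h2 : td2 G Finset.univ ≤ k) :
    td G Finset.univ ≤ DD k ((t - 1) / 2) := by
  rw [td_le_iff _ _ rfl]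
  refine upper k t ht _ ((td2_le_iff _ _ rfl k).mp h2) ?_
  intro b _ b' _ n T h1 _
  exact free_bound hfree h1

/-- For all `k ≥ 1` and `t ≥ 2`, the largest treedepth of a `P_t`-free graph of 2-treedepth at
most `k` is `binom (⌊(t-1)/2⌋ + k - 1) ⌊(t-1)/2⌋`. -/
theorem result (k t : ℕ) (hk : 1 ≤ k) (ht : 2 ≤ t) :
    IsGreatest (treedepths k t) (Nat.choose ((t - 1) / 2 + k - 1) ((t - 1) / 2)) := by
  obtain ⟨k, rfl⟩ : ∃ j, k = j + 1 := ⟨k - 1, by omega⟩
  have e : Nat.choose ((t - 1) / 2 + (k + 1) - 1) ((t - 1) / 2) = DD (k + 1) ((t - 1) / 2) := by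
    rw [DD_choose]
    rfl
  rw [e]
  constructor
  · -- the value is attained
    have hex : ∃ (V : Type) (_ : Fintype V) (G : SimpleGraph V),
        T2 G (k + 1) Finset.univ ∧ IsEmpty (SimpleGraph.pathGraph t ↪g G) ∧
        ∀ d, TDle G d Finset.univ → DD (k + 1) ((t - 1) / 2) ≤ d := by
      by_cases hf : (t - 1) / 2 = 0
      · rw [hf]
        refine ⟨Wr Unit, inferInstance, ⊥, ?_, ?_, ?_⟩
        · refine T2.apex k _ ⟨()⟩ (Finset.mem_univ _) ?_
          have : (Finset.univ : Finset (Wr Unit)).erase ⟨()⟩ = ∅ := by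
            ext x
            simp
          rw [this]
          exact T2.empty k
        · refine ⟨fun f => ?_⟩
          have := congrArg Fin.val (f.injective (Subsingleton.elim (f ⟨0, by omega⟩)
            (f ⟨1, by omega⟩)))
          simp at this
        · intro d h
          rw [DD_succ_zero]
          rcases h.inv ⟨⟨()⟩, Finset.mem_univ _⟩ with
            ⟨d', v, rfl, -, -⟩ | ⟨A, B, -, hA, hB, hn, -, -⟩
          · omega
          · obtain ⟨a, ha⟩ := hA
            obtain ⟨b, hb⟩ := hB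
            exact absurd (Subsingleton.elim a b) (hn a ha b hb).1
      · obtain ⟨f, hf'⟩ : ∃ f, (t - 1) / 2 = f + 1 := ⟨(t - 1) / 2 - 1, by omega⟩
        obtain ⟨V, hV, G, h1, h2, h3⟩ := lower k f
        refine ⟨V, hV, G, h1, ⟨fun e => h2 ?_⟩, by rw [hf']; exact h3⟩
        obtain ⟨p, hp1, hp2⟩ := hasPath_of_embedding (by omega) e
        exact ⟨p, fun i j hi hj => hp1 i j (by omega) (by omega),
          fun i j hi hj => hp2 i j (by omega) (by omega)⟩
    obtain ⟨V, hV, G, h1, h2, h3⟩ := hex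
    have h4 : td2 G Finset.univ ≤ k + 1 := (td2_le_iff _ _ rfl _).mpr h1
    refine ⟨V, hV, G, h2, h4, le_antisymm (upper_bound (k + 1) t ht V G h2 h4) ?_⟩
    exact h3 _ ((td_le_iff _ _ rfl _).mp le_rfl)
  · rintro d ⟨V, hV, G, h1, h2, rfl⟩
    exact upper_bound (k + 1) t ht V G h1 h2

end Pool.Agent.Results.MP_28efe0_co.TreedepthValue
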